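import Pool.Agent.W_aaa0df_t9.Defs

/-!
# T9, polynomial version of theorem M: definitions

Rows are integer vectors `a = (a₁, a₂)`, `a₂ ≠ 0` (rational numbers `a₁/a₂`), columns are integer
polynomials `f` of degree at most `G`; the value is `a₂^G f(a₁/a₂)`.
-/

set_option autoImplicit false

namespace T9

open MPaaa0df Polynomial

/-- the homogenized value `a₂^G f(a₁/a₂)` -/
noncomputable def hm (G : ℕ) (f : ℤ[X]) (a : ℤ × ℤ) : ℤ :=
  ∑ i ∈ Finset.range (G + 1), f.coeff i * a.1 ^ i * a.2 ^ (G - i)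

/-- the correlation sum of the block `B` of polynomials at the two primes `p, q` -/
noncomputable def SF (G : ℕ) (B : Finset ℤ[X]) (a : ℤ × ℤ) (p q : ℕ) : ℝ :=
  ∑ f ∈ B, (jacobiSym (hm G f a) p : ℝ) * (jacobiSym (hm G f a) q : ℝ)

/-- the prime `p` is good for the block `B` of polynomials -/
def GoodF (B : Finset ℤ[X]) (p : ℕ) : Prop :=
  p.Prime ∧ p ≠ 2 ∧
    (∀ f ∈ B, 1 ≤ (f.map (Int.castRingHom (ZMod p))).natDegree ∧
      Squarefree (f.map (Int.castRingHom (ZMod p)))) ∧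
    ∀ f ∈ B, ∀ g ∈ B, f ≠ g →
      IsCoprime (f.map (Int.castRingHom (ZMod p))) (g.map (Int.castRingHom (ZMod p)))

end T9
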