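import Pool.Agent.W_aaa0df_mp.MW2
import Pool.Agent.W_aaa0df_t9.G2

/-!
# T9 poly, MG2: the block lemma (copy and adapt the proofs in `W_aaa0df_t9/G2.lean`)
-/

set_option autoImplicit false

namespace T9

open Finset Polynomial

theorem MG2_abs (m : ℤ) (p : ℕ) : |(jacobiSym m p : ℝ)| ≤ 1 := by
  rcases jacobiSym.trichotomy m p with h0 | h0 | h0 <;> rw [h0] <;> simp

theorem MG2_le (G : ℕ) (B : Finset ℤ[X]) (a : ℤ × ℤ) (s : ℤ) (p q : ℕ) :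
    |∑ f ∈ B, (jacobiSym (s * hm G f a) p : ℝ) * (jacobiSym (s * hm G f a) q : ℝ)| ≤
      |SF G B a p q| := by
  have h1 : ∑ f ∈ B, (jacobiSym (s * hm G f a) p : ℝ) * (jacobiSym (s * hm G f a) q : ℝ) =
      ((jacobiSym s p : ℝ) * (jacobiSym s q : ℝ)) * SF G B a p q := by
    unfold SF
    rw [Finset.mul_sum]
    refine Finset.sum_congr rfl fun f _ => ?_
    rw [jacobiSym.mul_left, jacobiSym.mul_left]
    push_cast
    ring
  rw [h1, abs_mul, abs_mul]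
  have h2 : |(jacobiSym s p : ℝ)| * |(jacobiSym s q : ℝ)| ≤ 1 :=
    mul_le_one₀ (MG2_abs _ _) (abs_nonneg _) (MG2_abs _ _)
  exact mul_le_of_le_one_left (abs_nonneg _) h2

/-- PROOF. As `T9.pairs_abundant`: `abundant` with `x f p = jacobiSym (s * hm G f a) p`, which is
`jacobiSym s p * jacobiSym (hm G f a) p`; so the correlation found is at most `|SF G B a p q|` in absolute
value (`|jacobiSym s p| ≤ 1`). -/
theorem pairs_abundant_poly (G : ℕ) (B : Finset ℤ[X]) (hB : B.Nonempty) (P : Finset ℕ)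
    (a : ℤ × ℤ) (s : ℤ) (c₀ η ω : ℝ) (hc0 : 0 < c₀) (hη : 0 < η)
    (hω : ((P.filter (fun p : ℕ => (p : ℤ) ∣ a.2)).card : ℝ) ≤ ω)
    (hbig : 1 + 2 * ω ≤ (η * c₀ ^ 2 / 4) * P.card)
    (h : η * B.card ≤ ((B.filter (fun f => c₀ * P.card ≤
      |∑ p ∈ P, (jacobiSym (s * hm G f a) p : ℝ)|)).card : ℝ)) :
    (η * c₀ ^ 2 / 4) * (P.card : ℝ) ^ 2 ≤
      (((P ×ˢ P).filter (fun w => w.1 ≠ w.2 ∧ ¬ (w.1 : ℤ) ∣ a.2 ∧ ¬ (w.2 : ℤ) ∣ a.2 ∧
        (η * c₀ ^ 2 / 2) * B.card ≤ |SF G B a w.1 w.2|)).card : ℝ) := by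
  classical
  have hx : ∀ (f : ℤ[X]) (p : ℕ), |(jacobiSym (s * hm G f a) p : ℝ)| ≤ 1 := by
    intro f p
    exact MG2_abs _ _
  have hab := abundant B hB P (fun f p => (jacobiSym (s * hm G f a) p : ℝ)) hx c₀ η hc0.le hη.le h
  set R := (P ×ˢ P).filter (fun w : ℕ × ℕ => (η * c₀ ^ 2 / 2) * B.card ≤
        |∑ f ∈ B, (jacobiSym (s * hm G f a) w.1 : ℝ) * (jacobiSym (s * hm G f a) w.2 : ℝ)|) with hR
  set GG := (P ×ˢ P).filter (fun w : ℕ × ℕ => w.1 ≠ w.2 ∧ ¬ (w.1 : ℤ) ∣ a.2 ∧ ¬ (w.2 : ℤ) ∣ a.2 ∧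
        (η * c₀ ^ 2 / 2) * B.card ≤ |SF G B a w.1 w.2|) with hGG
  set Z := P.filter (fun p : ℕ => (p : ℤ) ∣ a.2) with hZ
  have hsub : R ⊆ GG ∪ (P.image (fun p => (p, p)) ∪ (Z ×ˢ P ∪ P ×ˢ Z)) := by
    intro w hw
    rw [hR, mem_filter, mem_product] at hw
    obtain ⟨⟨h1, h2⟩, h3⟩ := hw
    by_cases e : w.1 = w.2
    · refine mem_union_right _ (mem_union_left _ ?_)
      rw [mem_image]
      exact ⟨w.1, h1, by ext <;> simp [e]⟩
    by_cases e1 : (w.1 : ℤ) ∣ a.2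
    · refine mem_union_right _ (mem_union_right _ (mem_union_left _ ?_))
      rw [mem_product, hZ, mem_filter]
      exact ⟨⟨h1, e1⟩, h2⟩
    by_cases e2 : (w.2 : ℤ) ∣ a.2
    · refine mem_union_right _ (mem_union_right _ (mem_union_right _ ?_))
      rw [mem_product, hZ, mem_filter]
      exact ⟨h1, ⟨h2, e2⟩⟩
    · refine mem_union_left _ ?_
      rw [hGG, mem_filter, mem_product]
      exact ⟨⟨h1, h2⟩, e, e1, e2, h3.trans (MG2_le G B a s w.1 w.2)⟩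
  have hcard : (R.card : ℝ) ≤ GG.card + (P.card + (Z.card * P.card + P.card * Z.card)) := by
    have h1 := card_le_card hsub
    have h2 := card_union_le GG (P.image (fun p => (p, p)) ∪ (Z ×ˢ P ∪ P ×ˢ Z))
    have h3 := card_union_le (P.image (fun p => (p, p))) (Z ×ˢ P ∪ P ×ˢ Z)
    have h4 := card_union_le (Z ×ˢ P) (P ×ˢ Z)
    have h5 : (P.image (fun p => (p, p))).card ≤ P.card := card_image_le
    rw [card_product, card_product] at h4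
    exact_mod_cast (by omega : R.card ≤ GG.card + (P.card + (Z.card * P.card + P.card * Z.card)))
  have hP0 : (0 : ℝ) ≤ P.card := Nat.cast_nonneg _
  have h6 : (Z.card : ℝ) * P.card ≤ ω * P.card := mul_le_mul_of_nonneg_right hω hP0
  have h7 : (1 + 2 * ω) * P.card ≤ (η * c₀ ^ 2 / 4) * P.card * P.card :=
    mul_le_mul_of_nonneg_right hbig hP0
  nlinarith [hab, hcard, h6, h7]

/-- PROOF. As `T9.block`, with `card_classes_poly`, `pairs_abundant_poly`, `dvd_cr_of_class`. -/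
theorem block_poly (G : ℕ) (B : Finset ℤ[X]) (hB : B.Nonempty) (hG : ∀ f ∈ B, f.natDegree ≤ G)
    (P : Finset ℕ) (hP : ∀ p ∈ P, GoodF B p)
    (y₀ y₁ X : ℝ) (hy0 : 1 < y₀) (hX : 1 ≤ X) (hPy : ∀ p ∈ P, y₀ ≤ (p : ℝ) ∧ (p : ℝ) ≤ y₁)
    (A : Finset (ℤ × ℤ)) (hA : ∀ a ∈ A, |(a.1 : ℝ)| ≤ X ∧ |(a.2 : ℝ)| ≤ X ∧ a.2 ≠ 0)
    (hA2 : ∀ a ∈ A, ∀ a' ∈ A, a ≠ a' → cr a a' ≠ 0)
    (c₀ η Ω V : ℝ) (hc0 : 0 < c₀) (hη : 0 < η) (k : ℕ)
    (hΩ : Real.log (2 * X ^ 2) / Real.log y₀ ≤ Ω)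
    (hbig : 1 + 2 * Ω ≤ (η * c₀ ^ 2 / 4) * P.card)
    (hV : (1 / (η * c₀ ^ 2 / 2)) ^ (2 * k) * (((k : ℝ) ^ 2 / B.card) ^ k * (y₁ * y₁) +
      (24 * G * k) ^ 2 * y₁) ≤ V)
    (h : ∀ a ∈ A, ∃ s : ℤ, η * B.card ≤ ((B.filter (fun f => c₀ * P.card ≤
      |∑ p ∈ P, (jacobiSym (s * hm G f a) p : ℝ)|)).card : ℝ)) :
    (η * c₀ ^ 2 / 4) ^ 2 * (P.card : ℝ) ^ 2 * A.card ≤
      V * ((P.card : ℝ) ^ 2 + A.card * Ω ^ 2) := by
  have hlogy : 0 < Real.log y₀ := Real.log_pos hy0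
  have hX2 : (1 : ℝ) ≤ 2 * X ^ 2 := by nlinarith
  have hΩ0 : 0 ≤ Ω := le_trans (div_nonneg (Real.log_nonneg hX2) hlogy.le) hΩ
  have hc : 0 < η * c₀ ^ 2 / 2 := by positivity
  have hc4 : 0 < η * c₀ ^ 2 / 4 := by positivity
  -- P is nonempty
  have hPc : (0 : ℝ) < P.card := by
    by_contra hcon
    have : (P.card : ℝ) = 0 := le_antisymm (not_lt.mp hcon) (Nat.cast_nonneg _)
    rw [this, mul_zero] at hbig
    linarith
  have hPne : P.Nonempty := by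
    rw [← card_pos]; exact_mod_cast hPc
  obtain ⟨p₀, hp₀⟩ := hPne
  have hy1 : 0 < y₁ := by
    have := hPy p₀ hp₀
    linarith [this.1, this.2]
  have hBc : (0 : ℝ) < B.card := by exact_mod_cast hB.card_pos
  have hV0 : 0 ≤ V := by
    refine le_trans ?_ hV
    positivity
  -- apply the larger sieve
  classical
  have key := gallagher A (P ×ˢ P)
    (fun a w => w.1 ≠ w.2 ∧ ¬ (w.1 : ℤ) ∣ a.2 ∧ ¬ (w.2 : ℤ) ∣ a.2 ∧
        (η * c₀ ^ 2 / 2) * B.card ≤ |SF G B a w.1 w.2|)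
    (fun w a => (ZMod.val ((a.1 : ZMod w.1) * (a.2 : ZMod w.1)⁻¹ : ZMod w.1),
      ZMod.val ((a.1 : ZMod w.2) * (a.2 : ZMod w.2)⁻¹ : ZMod w.2)))
    V (Ω ^ 2) (η * c₀ ^ 2 / 4) hV0 (by positivity) hc4.le ?_ ?_ ?_
  · rw [card_product] at key
    push_cast at key
    rcases (Nat.cast_nonneg (α := ℝ) A.card).eq_or_lt with hA0 | hA0
    · rw [← hA0]
      have : 0 ≤ V * (P.card : ℝ) ^ 2 := by positivity
      nlinarith
    · have h1 : (A.card : ℝ) * ((η * c₀ ^ 2 / 4) ^ 2 * (P.card : ℝ) ^ 2 * A.card) ≤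
          A.card * (V * ((P.card : ℝ) ^ 2 + A.card * Ω ^ 2)) := by nlinarith [key]
      exact le_of_mul_le_mul_left h1 hA0
  · -- h1
    rintro ⟨p, q⟩ hw
    rw [mem_product] at hw
    obtain ⟨hp, hq⟩ := hw
    simp only at hp hq ⊢
    set A' := A.filter (fun a => p ≠ q ∧ ¬ (p : ℤ) ∣ a.2 ∧ ¬ (q : ℤ) ∣ a.2 ∧
        (η * c₀ ^ 2 / 2) * B.card ≤ |SF G B a p q|) with hA'
    have him : (A'.image (fun a => (ZMod.val ((a.1 : ZMod p) * (a.2 : ZMod p)⁻¹ : ZMod p),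
      ZMod.val ((a.1 : ZMod q) * (a.2 : ZMod q)⁻¹ : ZMod q)))) =
      (A'.image (fun a => (((a.1 : ZMod p) * (a.2 : ZMod p)⁻¹ : ZMod p),
      ((a.1 : ZMod q) * (a.2 : ZMod q)⁻¹ : ZMod q)))).image
        (fun z => (ZMod.val z.1, ZMod.val z.2)) := by
      rw [image_image]; rfl
    rw [him]
    have hle := card_image_le (s := A'.image (fun a => (((a.1 : ZMod p) * (a.2 : ZMod p)⁻¹ : ZMod p),
      ((a.1 : ZMod q) * (a.2 : ZMod q)⁻¹ : ZMod q)))) (f := fun z => (ZMod.val z.1, ZMod.val z.2))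
    have hcl := card_classes_poly G B hB hG p q (hP p hp) (hP q hq) k (η * c₀ ^ 2 / 2) hc A' (by
      intro a ha
      rw [hA', mem_filter] at ha
      exact ha.2.2)
    refine le_trans (Nat.cast_le.mpr hle) (le_trans hcl (le_trans ?_ hV))
    have hp1 := (hPy p hp).2
    have hq1 := (hPy q hq).2
    have hpq : (p : ℝ) * q ≤ y₁ * y₁ :=
      mul_le_mul hp1 hq1 (Nat.cast_nonneg _) hy1.le
    have hsq : √(p : ℝ) * √(q : ℝ) ≤ y₁ := by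
      calc √(p : ℝ) * √(q : ℝ) ≤ √y₁ * √y₁ :=
            mul_le_mul (Real.sqrt_le_sqrt hp1) (Real.sqrt_le_sqrt hq1) (Real.sqrt_nonneg _)
              (Real.sqrt_nonneg _)
        _ = y₁ := Real.mul_self_sqrt hy1.le
    gcongr
  · -- h2
    intro a ha
    obtain ⟨h1, h2, h3⟩ := hA a ha
    have hom : ((P.filter (fun p : ℕ => (p : ℤ) ∣ a.2)).card : ℝ) ≤ Ω := by
      refine le_trans (omega_P h3 hy0 (D := 2 * X ^ 2) ?_ P ?_) hΩ
      · nlinarith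
      · intro p hp
        exact ⟨(hP p hp).1, (hPy p hp).1⟩
    obtain ⟨s, hs⟩ := h a ha
    have := pairs_abundant_poly G B hB P a s c₀ η Ω hc0 hη hom hbig hs
    rw [card_product]
    push_cast
    rw [← pow_two]
    exact this
  · -- h3
    intro a ha a' ha' hne
    have hcr := hA2 a ha a' ha' hne
    obtain ⟨h1, h2, h3⟩ := hA a ha
    obtain ⟨h1', h2', h3'⟩ := hA a' ha'
    have hcrb : |((cr a a' : ℤ) : ℝ)| ≤ 2 * X ^ 2 := by
      unfold cr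
      push_cast
      have e1 : |(a.1 : ℝ) * a'.2| ≤ X * X := by
        rw [abs_mul]; exact mul_le_mul h1 h2' (abs_nonneg _) (by linarith)
      have e2 : |(a.2 : ℝ) * a'.1| ≤ X * X := by
        rw [abs_mul]; exact mul_le_mul h2 h1' (abs_nonneg _) (by linarith)
      have e3 := abs_sub (a.1 * a'.2 : ℝ) (a.2 * a'.1)
      nlinarith
    have hom : ((P.filter (fun p : ℕ => (p : ℤ) ∣ cr a a')).card : ℝ) ≤ Ω := by
      refine le_trans (omega_P hcr hy0 (D := 2 * X ^ 2) hcrb P ?_) hΩ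
      intro p hp
      exact ⟨(hP p hp).1, (hPy p hp).1⟩
    have hsub : (P ×ˢ P).filter (fun w => (w.1 ≠ w.2 ∧ ¬ (w.1 : ℤ) ∣ a.2 ∧ ¬ (w.2 : ℤ) ∣ a.2 ∧
        (η * c₀ ^ 2 / 2) * B.card ≤ |SF G B a w.1 w.2|) ∧
        (w.1 ≠ w.2 ∧ ¬ (w.1 : ℤ) ∣ a'.2 ∧ ¬ (w.2 : ℤ) ∣ a'.2 ∧
        (η * c₀ ^ 2 / 2) * B.card ≤ |SF G B a' w.1 w.2|) ∧
        (ZMod.val ((a.1 : ZMod w.1) * (a.2 : ZMod w.1)⁻¹ : ZMod w.1),
          ZMod.val ((a.1 : ZMod w.2) * (a.2 : ZMod w.2)⁻¹ : ZMod w.2)) =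
        (ZMod.val ((a'.1 : ZMod w.1) * (a'.2 : ZMod w.1)⁻¹ : ZMod w.1),
          ZMod.val ((a'.1 : ZMod w.2) * (a'.2 : ZMod w.2)⁻¹ : ZMod w.2))) ⊆
        (P.filter (fun p : ℕ => (p : ℤ) ∣ cr a a')) ×ˢ
        (P.filter (fun p : ℕ => (p : ℤ) ∣ cr a a')) := by
      rintro ⟨p, q⟩ hw
      rw [mem_filter, mem_product] at hw
      obtain ⟨⟨hp, hq⟩, ⟨-, u1, u2, -⟩, ⟨-, v1, v2, -⟩, he⟩ := hw
      simp only at hp hq u1 u2 v1 v2 he
      rw [Prod.mk.injEq] at he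
      haveI : NeZero p := ⟨(hP p hp).1.ne_zero⟩
      haveI : NeZero q := ⟨(hP q hq).1.ne_zero⟩
      rw [mem_product, mem_filter, mem_filter]
      exact ⟨⟨hp, dvd_cr_of_class p (hP p hp).1 a a' u1 v1 (ZMod.val_injective p he.1)⟩,
        ⟨hq, dvd_cr_of_class q (hP q hq).1 a a' u2 v2 (ZMod.val_injective q he.2)⟩⟩
    have hle := card_le_card hsub
    rw [card_product] at hle
    calc _ ≤ (((P.filter (fun p : ℕ => (p : ℤ) ∣ cr a a')).card *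
          (P.filter (fun p : ℕ => (p : ℤ) ∣ cr a a')).card : ℕ) : ℝ) := by
            exact_mod_cast hle
      _ = ((P.filter (fun p : ℕ => (p : ℤ) ∣ cr a a')).card : ℝ) *
          (P.filter (fun p : ℕ => (p : ℤ) ∣ cr a a')).card := by push_cast; ring
      _ ≤ Ω * Ω := mul_le_mul hom hom (Nat.cast_nonneg _) hΩ0
      _ = Ω ^ 2 := by ring

end T9
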