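import Pool.Agent.W_aaa0df_mp.MDefs
import Pool.Agent.W_aaa0df_t9.G1

/-!
# T9 poly, MP2: resultants and the bad primes of a block of polynomials
-/

set_option autoImplicit false

namespace T9

open Finset Polynomial

/-- an integral Bezout identity gives coprimality modulo `p` -/
theorem MP2_cop (f g U V : ℤ[X]) (R : ℤ) (h : f * U + g * V = C R) (p : ℕ) (hp : p.Prime)
    (hR : ¬ (p : ℤ) ∣ R) :
    IsCoprime (f.map (Int.castRingHom (ZMod p))) (g.map (Int.castRingHom (ZMod p))) := by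
  have := Fact.mk hp
  have h1 := congrArg (Polynomial.map (Int.castRingHom (ZMod p))) h
  rw [Polynomial.map_add, Polynomial.map_mul, Polynomial.map_mul, Polynomial.map_C] at h1
  have hr : (Int.castRingHom (ZMod p)) R ≠ 0 := by
    intro h0
    apply hR
    rw [eq_intCast] at h0
    exact (ZMod.intCast_zmod_eq_zero_iff_dvd R p).1 h0
  refine ⟨C ((Int.castRingHom (ZMod p) R)⁻¹) * U.map (Int.castRingHom (ZMod p)),
    C ((Int.castRingHom (ZMod p) R)⁻¹) * V.map (Int.castRingHom (ZMod p)), ?_⟩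
  have h2 : C ((Int.castRingHom (ZMod p) R)⁻¹) * (C ((Int.castRingHom (ZMod p)) R)) =
      (1 : (ZMod p)[X]) := by
    rw [← C_mul, inv_mul_cancel₀ hr, C_1]
  rw [← h2, ← h1]
  ring

/-- PROOF. `R = resultant f g f.natDegree g.natDegree`. Nonzero: its image in `ℚ` is the resultant of the
mapped polynomials (`resultant_map_map`, `natDegree` is preserved by the injective map), nonzero by
`resultant_ne_zero`. `Polynomial.exists_mul_add_mul_eq_C_resultant` gives `U f + V g = C R` over `ℤ`; reduce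
modulo `p`, `R` is a unit of `ZMod p`. Bound: determinant of a matrix of size `≤ 2G` with entries at most
`H ≥ 1` in absolute value (`Matrix.det_le`, or expand `Matrix.det_apply`): `≤ (2G)! H^(2G)`.
(`G ≥ 1` is needed: two constants.) -/
theorem coprime_mod (G : ℕ) (hG : 1 ≤ G) (f g : ℤ[X]) (hf : f.natDegree ≤ G)
    (hg : g.natDegree ≤ G) (H : ℝ)
    (hH : 1 ≤ H) (hfH : ∀ i, |(f.coeff i : ℝ)| ≤ H) (hgH : ∀ i, |(g.coeff i : ℝ)| ≤ H)
    (hfg : IsCoprime (f.map (Int.castRingHom ℚ)) (g.map (Int.castRingHom ℚ))) :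
    ∃ R : ℤ, R ≠ 0 ∧ |(R : ℝ)| ≤ (2 * G).factorial * H ^ (2 * G) ∧ ∀ p : ℕ, p.Prime →
      ¬ (p : ℤ) ∣ R → IsCoprime (f.map (Int.castRingHom (ZMod p)))
        (g.map (Int.castRingHom (ZMod p))) := by
  have hinj : Function.Injective (Int.castRingHom ℚ) := Int.cast_injective
  have hHb : H ≤ (2 * G).factorial * H ^ (2 * G) := by
    have h1 : (1 : ℝ) ≤ (2 * G).factorial := by exact_mod_cast Nat.succ_le_of_lt (Nat.factorial_pos _)
    have h2 : H ≤ H ^ (2 * G) := le_self_pow₀ hH (by omega)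
    have h3 : 0 ≤ H ^ (2 * G) := by positivity
    nlinarith
  by_cases h0 : f.natDegree ≠ 0 ∨ g.natDegree ≠ 0
  · refine ⟨resultant f g, ?_, ?_, ?_⟩
    · intro hz
      have h1 := resultant_ne_zero _ _ hfg
      apply h1
      rw [natDegree_map_eq_of_injective hinj, natDegree_map_eq_of_injective hinj,
        resultant_map_map, hz, map_zero]
    · have hent : ∀ i j, (AbsoluteValue.abs : AbsoluteValue ℝ ℝ)
          (((Int.castRingHom ℝ).mapMatrix (sylvester f g f.natDegree g.natDegree)) i j) ≤ H := by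
        intro i j
        rw [RingHom.mapMatrix_apply, Matrix.map_apply]
        induction j using Fin.addCases with
        | left j =>
          simp only [sylvester, Matrix.of_apply, Fin.addCases_left]
          split_ifs
          · exact hgH _
          · simp; linarith
        | right j =>
          simp only [sylvester, Matrix.of_apply, Fin.addCases_right]
          split_ifs
          · exact hfH _
          · simp; linarith
      have h1 := Matrix.det_le hent
      rw [← RingHom.map_det] at h1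
      have h2 : (AbsoluteValue.abs : AbsoluteValue ℝ ℝ) ((Int.castRingHom ℝ)
          (sylvester f g f.natDegree g.natDegree).det) = |((resultant f g : ℤ) : ℝ)| := rfl
      rw [h2, Fintype.card_fin, nsmul_eq_mul] at h1
      refine h1.trans ?_
      have h3 : f.natDegree + g.natDegree ≤ 2 * G := by omega
      have h4 : ((f.natDegree + g.natDegree).factorial : ℝ) ≤ ((2 * G).factorial : ℝ) := by
        exact_mod_cast Nat.factorial_le h3
      have h5 : H ^ (f.natDegree + g.natDegree) ≤ H ^ (2 * G) := pow_le_pow_right₀ hH h3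
      exact mul_le_mul h4 h5 (by positivity) (by positivity)
    · intro p hp hR
      obtain ⟨U, V, _, _, hUV⟩ := exists_mul_add_mul_eq_C_resultant (m := f.natDegree)
        (n := g.natDegree) f g le_rfl le_rfl h0
      exact MP2_cop f g U V _ hUV p hp hR
  · push Not at h0
    obtain ⟨h1, h2⟩ := h0
    have e1 := eq_C_of_natDegree_eq_zero h1
    have e2 := eq_C_of_natDegree_eq_zero h2
    by_cases ha : f.coeff 0 = 0
    · have hb : g.coeff 0 ≠ 0 := by
        intro hb
        rw [e1, e2, ha, hb] at hfg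
        simp only [map_zero, Polynomial.map_zero] at hfg
        exact not_isUnit_zero (isCoprime_zero_left.1 hfg)
      refine ⟨g.coeff 0, hb, (hgH 0).trans hHb, fun p hp hR => ?_⟩
      refine MP2_cop f g 0 1 (g.coeff 0) ?_ p hp hR
      rw [mul_zero, mul_one, zero_add]
      exact e2
    · refine ⟨f.coeff 0, ha, (hfH 0).trans hHb, fun p hp hR => ?_⟩
      refine MP2_cop f g 1 0 (f.coeff 0) ?_ p hp hR
      rw [mul_zero, mul_one, add_zero]
      exact e1

/-- PROOF. `R = R' * f.leadingCoeff` with `R'` from `coprime_mod G f (derivative f)` with height `G H`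
(over `ℚ`: squarefree implies separable, `PerfectField.separable_iff_squarefree`, i.e. coprime to the
derivative). For `p ∤ R`: the leading coefficient does not vanish mod `p`, so the degree is preserved;
`f mod p` is coprime to its derivative, so separable and squarefree. -/
theorem squarefree_mod (G : ℕ) (f : ℤ[X]) (hf1 : 1 ≤ f.natDegree) (hf : f.natDegree ≤ G) (H : ℝ)
    (hH : 1 ≤ H) (hfH : ∀ i, |(f.coeff i : ℝ)| ≤ H)
    (hsq : Squarefree (f.map (Int.castRingHom ℚ))) :
    ∃ R : ℤ, R ≠ 0 ∧ |(R : ℝ)| ≤ (2 * G).factorial * (G * H) ^ (2 * G) * H ∧ ∀ p : ℕ, p.Prime →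
      ¬ (p : ℤ) ∣ R → 1 ≤ (f.map (Int.castRingHom (ZMod p))).natDegree ∧
        Squarefree (f.map (Int.castRingHom (ZMod p))) := by
  have hG : 1 ≤ G := hf1.trans hf
  have hG' : (1 : ℝ) ≤ G := by exact_mod_cast hG
  have hH0 : 0 ≤ H := by linarith
  have hGH : H ≤ G * H := by nlinarith
  have hsep : (f.map (Int.castRingHom ℚ)).Separable := PerfectField.separable_iff_squarefree.2 hsq
  have hcop : IsCoprime (f.map (Int.castRingHom ℚ)) ((derivative f).map (Int.castRingHom ℚ)) := by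
    rw [← derivative_map]
    exact hsep
  have hdH : ∀ i, |((derivative f).coeff i : ℝ)| ≤ G * H := by
    intro i
    rw [coeff_derivative]
    by_cases hi : i + 1 ≤ f.natDegree
    · push_cast
      rw [abs_mul, mul_comm]
      have h1 : |(i : ℝ) + 1| ≤ G := by
        rw [abs_of_nonneg (by positivity)]
        exact_mod_cast hi.trans hf
      exact mul_le_mul h1 (hfH _) (abs_nonneg _) (by positivity)
    · rw [coeff_eq_zero_of_natDegree_lt (by omega)]
      simp
      positivity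
  obtain ⟨R', hR0, hRb, hRp⟩ := coprime_mod G hG f (derivative f) hf
    ((natDegree_derivative_le f).trans (by omega)) (G * H) (hH.trans hGH)
    (fun i => (hfH i).trans hGH) hdH hcop
  have hf0 : f ≠ 0 := by
    rintro rfl
    simp at hf1
  refine ⟨R' * f.leadingCoeff, mul_ne_zero hR0 (leadingCoeff_ne_zero.2 hf0), ?_, ?_⟩
  · push_cast
    rw [abs_mul]
    exact mul_le_mul hRb (hfH _) (abs_nonneg _) (by positivity)
  · intro p hp hR
    have := Fact.mk hp
    have hlc : (Int.castRingHom (ZMod p)) f.leadingCoeff ≠ 0 := by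
      intro h0
      apply hR
      rw [eq_intCast] at h0
      exact Dvd.dvd.mul_left ((ZMod.intCast_zmod_eq_zero_iff_dvd _ p).1 h0) _
    refine ⟨?_, ?_⟩
    · rw [natDegree_map_of_leadingCoeff_ne_zero _ hlc]
      exact hf1
    · have h1 := hRp p hp (fun h => hR (h.mul_right _))
      rw [← derivative_map] at h1
      exact Separable.squarefree h1

/-- The bad primes of a block are few.

PROOF. `K = K(G)` with `(2G)! (G X)^(2G) X ≤ X^K` for all `X ≥ 3`. A prime of `T` that is not good divides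
one of at most `|B| + |B|² ≤ 2 |B|²` nonzero integers of absolute value `≤ X^K` (`squarefree_mod`,
`coprime_mod`); apply `omega_P` to each. -/
theorem few_bad_poly (G : ℕ) : ∃ K : ℝ, 0 < K ∧ ∀ (B : Finset ℤ[X]) (X z : ℝ), 3 ≤ X → 1 < z →
    (∀ f ∈ B, 1 ≤ f.natDegree ∧ f.natDegree ≤ G ∧ (∀ i, |(f.coeff i : ℝ)| ≤ X) ∧
      Squarefree (f.map (Int.castRingHom ℚ))) →
    (∀ f ∈ B, ∀ g ∈ B, f ≠ g → IsCoprime (f.map (Int.castRingHom ℚ))
      (g.map (Int.castRingHom ℚ))) → ∀ T : Finset ℕ,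
    (∀ p ∈ T, p.Prime ∧ p ≠ 2 ∧ z ≤ (p : ℝ)) →
    ∃ P ⊆ T, (∀ p ∈ P, GoodF B p) ∧
      ((T \ P).card : ℝ) ≤ 2 * (B.card : ℝ) ^ 2 * (K * Real.log X / Real.log z) := by
  classical
  set c : ℝ := (2 * G).factorial * (G : ℝ) ^ (2 * G) with hc
  have hc1 : 1 ≤ c := by
    have h1 : (1 : ℝ) ≤ (2 * G).factorial := by
      exact_mod_cast Nat.succ_le_of_lt (Nat.factorial_pos _)
    have h2 : (1 : ℝ) ≤ (G : ℝ) ^ (2 * G) := by
      rcases Nat.eq_zero_or_pos G with h | h
      · subst h; simp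
      · exact one_le_pow₀ (by exact_mod_cast h)
    rw [hc]
    nlinarith
  refine ⟨Real.log c + (2 * G + 1), ?_, ?_⟩
  · have := Real.log_nonneg hc1
    positivity
  intro B X z hX hz hB hB2 T hT
  have hX1 : 1 ≤ X := by linarith
  have hX0 : 0 < X := by linarith
  have hlogX : 1 ≤ Real.log X := by
    rw [← Real.log_exp 1]
    apply Real.log_le_log (Real.exp_pos _)
    have := Real.exp_one_lt_d9
    linarith
  set D : ℝ := (2 * G).factorial * (G * X) ^ (2 * G) * X with hD
  have hDc : D = c * X ^ (2 * G + 1) := by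
    rw [hD, hc, mul_pow, pow_succ]
    ring
  have hD1 : 1 ≤ D := by
    rw [hDc]
    have : 1 ≤ X ^ (2 * G + 1) := one_le_pow₀ hX1
    nlinarith
  have hlogD : Real.log D ≤ (Real.log c + (2 * G + 1)) * Real.log X := by
    rw [hDc, Real.log_mul (by positivity) (by positivity), Real.log_pow]
    push_cast
    have h1 := Real.log_nonneg hc1
    nlinarith
  set R : ℝ := Real.log D / Real.log z with hR
  have hlz : 0 < Real.log z := Real.log_pos hz
  have hR0 : 0 ≤ R := div_nonneg (Real.log_nonneg hD1) hlz.le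
  have hRK : R ≤ (Real.log c + (2 * G + 1)) * Real.log X / Real.log z :=
    div_le_div_of_nonneg_right hlogD hlz.le
  have hTz : ∀ p ∈ T, p.Prime ∧ z ≤ (p : ℝ) := fun p hp => ⟨(hT p hp).1, (hT p hp).2.2⟩
  have hs : ∀ f : ℤ[X], ∃ r : ℤ, f ∈ B → r ≠ 0 ∧ |(r : ℝ)| ≤ D ∧ ∀ p : ℕ, p.Prime →
      ¬ (p : ℤ) ∣ r → 1 ≤ (f.map (Int.castRingHom (ZMod p))).natDegree ∧
        Squarefree (f.map (Int.castRingHom (ZMod p))) := by
    intro f
    by_cases hfB : f ∈ B
    · obtain ⟨h1, h2, h3, h4⟩ := hB f hfB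
      obtain ⟨r, hr⟩ := squarefree_mod G f h1 h2 X hX1 h3 h4
      exact ⟨r, fun _ => hr⟩
    · exact ⟨0, fun h => absurd h hfB⟩
  choose r1 hr1 using hs
  have hs2 : ∀ w : ℤ[X] × ℤ[X], ∃ r : ℤ, w.1 ∈ B → w.2 ∈ B → w.1 ≠ w.2 →
      r ≠ 0 ∧ |(r : ℝ)| ≤ D ∧ ∀ p : ℕ, p.Prime →
      ¬ (p : ℤ) ∣ r → IsCoprime (w.1.map (Int.castRingHom (ZMod p)))
        (w.2.map (Int.castRingHom (ZMod p))) := by
    intro w
    by_cases hfB : w.1 ∈ B ∧ w.2 ∈ B ∧ w.1 ≠ w.2
    · obtain ⟨h1, h2, h3⟩ := hfB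
      obtain ⟨a1, a2, a3, a4⟩ := hB _ h1
      obtain ⟨b1, b2, b3, b4⟩ := hB _ h2
      have hG : 1 ≤ G := a1.trans a2
      obtain ⟨r, hr, hr', hr''⟩ := coprime_mod G hG w.1 w.2 a2 b2 X hX1 a3 b3 (hB2 _ h1 _ h2 h3)
      refine ⟨r, fun _ _ _ => ⟨hr, hr'.trans ?_, hr''⟩⟩
      have hG' : (1 : ℝ) ≤ G := by exact_mod_cast hG
      rw [hD, mul_assoc]
      apply mul_le_mul_of_nonneg_left _ (by positivity)
      have e1 : X ^ (2 * G) ≤ (G * X) ^ (2 * G) :=
        pow_le_pow_left₀ hX0.le (by nlinarith) _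
      have e2 : 0 ≤ (G * X) ^ (2 * G) := by positivity
      nlinarith
    · refine ⟨0, fun h1 h2 h3 => absurd ⟨h1, h2, h3⟩ hfB⟩
  choose r2 hr2 using hs2
  refine ⟨T.filter (fun p => GoodF B p), Finset.filter_subset _ _,
    fun p hp => (Finset.mem_filter.mp hp).2, ?_⟩
  set U1 : Finset ℕ := B.biUnion (fun f => T.filter (fun p : ℕ => (p : ℤ) ∣ r1 f)) with hU1
  set W : Finset (ℤ[X] × ℤ[X]) := (B ×ˢ B).filter (fun w => w.1 ≠ w.2) with hW
  set U2 : Finset ℕ := W.biUnion (fun w => T.filter (fun p : ℕ => (p : ℤ) ∣ r2 w)) with hU2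
  have hsub : T \ T.filter (fun p => GoodF B p) ⊆ U1 ∪ U2 := by
    intro p hp
    rw [Finset.mem_sdiff, Finset.mem_filter] at hp
    obtain ⟨hpT, hng⟩ := hp
    have hng' : ¬ GoodF B p := fun h => hng ⟨hpT, h⟩
    unfold GoodF at hng'
    rw [Finset.mem_union, hU1, hU2, Finset.mem_biUnion, Finset.mem_biUnion]
    by_contra hcon
    push Not at hcon
    obtain ⟨hc1, hc2⟩ := hcon
    apply hng'
    refine ⟨(hT p hpT).1, (hT p hpT).2.1, ?_, ?_⟩
    · intro f hf
      exact (hr1 f hf).2.2 p (hT p hpT).1 (fun hdvd => hc1 f hf (Finset.mem_filter.mpr ⟨hpT, hdvd⟩))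
    · intro f hf g hg hne
      refine (hr2 (f, g) hf hg hne).2.2 p (hT p hpT).1 (fun hdvd => ?_)
      refine hc2 (f, g) ?_ (Finset.mem_filter.mpr ⟨hpT, hdvd⟩)
      rw [hW, Finset.mem_filter, Finset.mem_product]
      exact ⟨⟨hf, hg⟩, hne⟩
  have hc1 : (U1.card : ℝ) ≤ B.card * R := by
    have h1 : (U1.card : ℝ) ≤ ∑ f ∈ B, ((T.filter (fun p : ℕ => (p : ℤ) ∣ r1 f)).card : ℝ) := by
      have := Finset.card_biUnion_le (s := B) (t := fun f => T.filter (fun p : ℕ => (p : ℤ) ∣ r1 f))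
      exact_mod_cast this
    refine h1.trans ?_
    calc ∑ f ∈ B, ((T.filter (fun p : ℕ => (p : ℤ) ∣ r1 f)).card : ℝ) ≤ ∑ f ∈ B, R := by
          refine Finset.sum_le_sum fun f hf => ?_
          exact omega_P (hr1 f hf).1 hz (hr1 f hf).2.1 T hTz
      _ = B.card * R := by rw [Finset.sum_const, nsmul_eq_mul]
  have hc2 : (U2.card : ℝ) ≤ (B.card : ℝ) ^ 2 * R := by
    have h1 : (U2.card : ℝ) ≤ ∑ w ∈ W, ((T.filter (fun p : ℕ => (p : ℤ) ∣ r2 w)).card : ℝ) := by
      have := Finset.card_biUnion_le (s := W)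
        (t := fun w => T.filter (fun p : ℕ => (p : ℤ) ∣ r2 w))
      exact_mod_cast this
    refine h1.trans ?_
    have hWc : (W.card : ℝ) ≤ (B.card : ℝ) ^ 2 := by
      have h2 : W.card ≤ B.card * B.card := by
        rw [hW, ← Finset.card_product]
        exact Finset.card_filter_le _ _
      rw [sq]
      exact_mod_cast h2
    calc ∑ w ∈ W, ((T.filter (fun p : ℕ => (p : ℤ) ∣ r2 w)).card : ℝ) ≤ ∑ w ∈ W, R := by
          refine Finset.sum_le_sum fun w hw => ?_
          rw [hW, Finset.mem_filter, Finset.mem_product] at hw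
          obtain ⟨⟨hw1, hw2⟩, hne⟩ := hw
          exact omega_P (hr2 w hw1 hw2 hne).1 hz (hr2 w hw1 hw2 hne).2.1 T hTz
      _ = W.card * R := by rw [Finset.sum_const, nsmul_eq_mul]
      _ ≤ (B.card : ℝ) ^ 2 * R := mul_le_mul_of_nonneg_right hWc hR0
  have hBB : (B.card : ℝ) ≤ (B.card : ℝ) ^ 2 := by
    rcases Nat.eq_zero_or_pos B.card with h | h
    · rw [h]; simp
    · have : (1 : ℝ) ≤ B.card := by exact_mod_cast h
      nlinarith
  calc (((T \ T.filter (fun p => GoodF B p)).card : ℕ) : ℝ) ≤ ((U1 ∪ U2).card : ℝ) := by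
        exact_mod_cast Finset.card_le_card hsub
    _ ≤ (U1.card : ℝ) + U2.card := by exact_mod_cast Finset.card_union_le _ _
    _ ≤ B.card * R + (B.card : ℝ) ^ 2 * R := add_le_add hc1 hc2
    _ ≤ (B.card : ℝ) ^ 2 * R + (B.card : ℝ) ^ 2 * R := by
        have := mul_le_mul_of_nonneg_right hBB hR0
        linarith
    _ = 2 * (B.card : ℝ) ^ 2 * R := by ring
    _ ≤ 2 * (B.card : ℝ) ^ 2 * ((Real.log c + (2 * G + 1)) * Real.log X / Real.log z) :=
        mul_le_mul_of_nonneg_left hRK (by positivity)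

end T9
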