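import Pool.Agent.W_aaa0df_mp.MP3
import Pool.Agent.W_aaa0df_t9.P4

/-!
# T9 poly, MP4: theorem M for polynomial families
-/

set_option autoImplicit false

namespace T9

open Finset MPaaa0df Polynomial

/-- change of scale in `Bad` -/
theorem MP4_bad (G : ℕ) (κ δ X : ℝ) (hX : 0 ≤ X) (D : ℤ) (h : Bad κ δ X D) :
    Bad (κ / (G + 3)) δ (X ^ (G + 3)) D := by
  obtain ⟨h0, d, f, h1, h2, h3, h4⟩ := h
  refine ⟨h0, d, f, h1, h2, ?_, h4⟩
  have e : (X ^ (G + 3)) ^ (κ / ((G : ℝ) + 3)) = X ^ κ := by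
    rw [← Real.rpow_natCast, ← Real.rpow_mul hX]
    congr 1
    push_cast
    field_simp
  rw [e]
  exact h3

/-- a bound for the values -/
theorem MP4_hm_le (G : ℕ) (f : ℤ[X]) (a : ℤ × ℤ) (s : ℤ) (X : ℝ) (hX : (G : ℝ) + 1 ≤ X)
    (hs : |(s : ℝ)| ≤ X) (h1 : |(a.1 : ℝ)| ≤ X) (h2 : |(a.2 : ℝ)| ≤ X)
    (hf : ∀ i, |(f.coeff i : ℝ)| ≤ X) :
    |((s * hm G f a : ℤ) : ℝ)| ≤ X ^ (G + 3) := by
  have hG : (0 : ℝ) ≤ G := Nat.cast_nonneg G
  have hX0 : 0 ≤ X := by linarith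
  have hterm : ∀ i ∈ Finset.range (G + 1),
      |(f.coeff i : ℝ) * (a.1 : ℝ) ^ i * (a.2 : ℝ) ^ (G - i)| ≤ X ^ (G + 1) := by
    intro i hi
    have hi' : i ≤ G := by rw [Finset.mem_range] at hi; omega
    rw [abs_mul, abs_mul, abs_pow, abs_pow]
    have e1 : |(a.1 : ℝ)| ^ i ≤ X ^ i := pow_le_pow_left₀ (abs_nonneg _) h1 _
    have e2 : |(a.2 : ℝ)| ^ (G - i) ≤ X ^ (G - i) := pow_le_pow_left₀ (abs_nonneg _) h2 _
    have e3 : X * X ^ i * X ^ (G - i) = X ^ (G + 1) := by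
      rw [mul_assoc, ← pow_add, Nat.add_sub_cancel' hi', pow_succ, mul_comm]
    rw [← e3]
    exact mul_le_mul (mul_le_mul (hf i) e1 (by positivity) hX0) e2 (by positivity) (by positivity)
  have hsum : |((hm G f a : ℤ) : ℝ)| ≤ (G + 1) * X ^ (G + 1) := by
    unfold hm
    push_cast
    refine (Finset.abs_sum_le_sum_abs _ _).trans ((Finset.sum_le_sum hterm).trans ?_)
    rw [Finset.sum_const, Finset.card_range, nsmul_eq_mul]
    push_cast
    exact le_rfl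
  rw [Int.cast_mul, abs_mul]
  calc |(s : ℝ)| * |((hm G f a : ℤ) : ℝ)| ≤ X * ((G + 1) * X ^ (G + 1)) :=
        mul_le_mul hs hsum (abs_nonneg _) hX0
    _ ≤ X * (X * X ^ (G + 1)) := by
        apply mul_le_mul_of_nonneg_left _ hX0
        exact mul_le_mul_of_nonneg_right hX (by positivity)
    _ = X ^ (G + 3) := by ring

/-- asymptotic inequalities for `poly_families` -/
theorem MP4_asym (ε ε' c M : ℝ) (hε' : 0 < ε') (h : 2 * ε' ≤ ε) (hc : 1 ≤ c) :
    ∃ X₀ : ℝ, ∀ X : ℝ, X₀ ≤ X → M ≤ X ∧ 1 ≤ Real.log X ∧ 1 ≤ Real.log (Real.log X) ∧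
      (c * Real.log X) ^ ε' + 2 ≤ Real.log X ^ ε := by
  have t1 : Filter.Tendsto (fun X : ℝ => Real.log X) Filter.atTop Filter.atTop :=
    Real.tendsto_log_atTop
  have e0 := Filter.eventually_ge_atTop (α := ℝ) M
  have e1 := t1.eventually_ge_atTop 1
  have e2 := (Real.tendsto_log_atTop.comp t1).eventually_ge_atTop 1
  have e3 := ((tendsto_rpow_atTop hε').comp t1).eventually_ge_atTop (c ^ ε' + 2)
  obtain ⟨X₀, hX₀⟩ := Filter.eventually_atTop.mp (e0.and (e1.and (e2.and e3)))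
  refine ⟨X₀, fun X hX => ?_⟩
  obtain ⟨h0, h1, h2, h3⟩ := hX₀ X hX
  simp only [Function.comp] at h2 h3
  refine ⟨h0, h1, h2, ?_⟩
  have h5 : Real.log X ^ (2 * ε') ≤ Real.log X ^ ε := Real.rpow_le_rpow_of_exponent_le h1 h
  have h6 : Real.log X ^ (2 * ε') = Real.log X ^ ε' * Real.log X ^ ε' := by
    rw [two_mul, Real.rpow_add (by linarith)]
  have h7 : (c * Real.log X) ^ ε' = c ^ ε' * Real.log X ^ ε' :=
    Real.mul_rpow (by linarith) (by linarith)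
  have h8 : 0 ≤ c ^ ε' := by positivity
  have h9 : 1 ≤ Real.log X ^ ε' := by linarith
  rw [h7]
  nlinarith

open Classical in
/-- THEOREM M, polynomial version. `A` a finite set of pairwise non-proportional integer vectors with
entries at most `X`, second entries nonzero; `B` a finite set of integer polynomials of degree between
`1` and `G` and coefficients at most `X`, squarefree over `ℚ` and pairwise coprime over `ℚ`,
`|B| ≥ (log X)^ε`. If for every `a ∈ A` there is an integer `s` (`|s| ≤ X`) such that for at least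
`η |B|` of the `f ∈ B` the number `s a₂^G f(a₁/a₂)` is bad, then `|A| ≤ C (log X)² (log log X)²`.

PROOF. Apply everything at the scale `X' = X^(G+3)` with `κ' = κ/(G+3)`: `Bad κ δ X D` is
`Bad κ' δ X' D` (`X'^κ' = X^κ`), entries, coefficients `≤ X ≤ X'`, and
`|s * hm G f a| ≤ X (G+1) X X^G ≤ X^(G+3) ≤ 2 X'^2` for large `X`. `log X' = (G+3) log X`:
`log X'^ε'' ≤ log X^ε` for large `X` if `ε'' < ε`; the final bound changes by a constant factor. Then as in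
`T9.bilinear` (`W_aaa0df_t9/P4.lean`): `bad_bias`, `grid`, `pigeon` (with
`G i a f : ...` for the chosen twist `s a`), `exists_block`, `block_asym_poly` (no exceptional elements to
remove, since `a.2 ≠ 0` and `natDegree ≥ 1` are assumed). -/
theorem poly_families (G : ℕ) (ε κ δ η : ℝ) (hε : 0 < ε) (hκ : 0 < κ) (hδ : 0 < δ) (hη : 0 < η) :
    ∃ C X₀ : ℝ, ∀ X : ℝ, X₀ ≤ X → ∀ (A : Finset (ℤ × ℤ)) (B : Finset ℤ[X]),
      (∀ a ∈ A, |(a.1 : ℝ)| ≤ X ∧ |(a.2 : ℝ)| ≤ X ∧ a.2 ≠ 0) →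
      (∀ a ∈ A, ∀ a' ∈ A, a ≠ a' → cr a a' ≠ 0) →
      (∀ f ∈ B, 1 ≤ f.natDegree ∧ f.natDegree ≤ G ∧ (∀ i, |(f.coeff i : ℝ)| ≤ X) ∧
        Squarefree (f.map (Int.castRingHom ℚ))) →
      (∀ f ∈ B, ∀ g ∈ B, f ≠ g → IsCoprime (f.map (Int.castRingHom ℚ))
        (g.map (Int.castRingHom ℚ))) →
      Real.log X ^ ε ≤ B.card →
      (∀ a ∈ A, ∃ s : ℤ, |(s : ℝ)| ≤ X ∧
        η * B.card ≤ ((B.filter (fun f => Bad κ δ X (s * hm G f a))).card : ℝ)) →
      (A.card : ℝ) ≤ C * (Real.log X ^ 2 * Real.log (Real.log X) ^ 2) := by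
  set ε' : ℝ := min ε (1 / 8) / 2 with hε'def
  have hε' : 0 < ε' := by
    have : 0 < min ε (1 / 8) := lt_min hε (by norm_num)
    positivity
  have hε'2 : 2 * ε' ≤ ε := by
    have : min ε (1 / 8) ≤ ε := min_le_left _ _
    linarith
  have hε'8 : ε' ≤ 1 / 8 := by
    have : min ε (1 / 8) ≤ 1 / 8 := min_le_right _ _
    linarith
  set c : ℝ := (G : ℝ) + 3 with hcdef
  have hc3 : 3 ≤ c := by
    have : (0 : ℝ) ≤ G := Nat.cast_nonneg G
    linarith
  have hc0 : 0 < c := by linarith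
  set κ' : ℝ := κ / c with hκ'def
  have hκ' : 0 < κ' := by positivity
  obtain ⟨X1, hX1⟩ := bad_bias κ' δ hκ' hδ
  obtain ⟨J, X2, hX2⟩ := grid κ' δ hκ' hδ
  set η₂ : ℝ := η / (J + 1) with hη₂def
  have hη₂ : 0 < η₂ := by positivity
  obtain ⟨C, X3, hC, hX3⟩ := block_asym_poly G κ' δ (η₂ / 2) ε' hκ' hδ (by positivity) hε' hε'8
  obtain ⟨X4, hX4⟩ := MP4_asym ε ε' c (max c (max (max X1 X2) X3)) hε' hε'2 (by linarith)
  refine ⟨(J + 1) * (2 / η₂ * (C * (c ^ 2 * (Real.log c + 1) ^ 2))), X4, ?_⟩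
  intro X hX A B hA hA2 hB hB2 hBc hbad
  obtain ⟨hXM, hL1, hLL1, hL2⟩ := hX4 X hX
  have hXc : c ≤ X := (le_max_left _ _).trans hXM
  have hXM' : max (max X1 X2) X3 ≤ X := (le_max_right _ _).trans hXM
  have hX1' : 1 ≤ X := by linarith
  have hX0 : 0 ≤ X := by linarith
  -- the scale
  set Y : ℝ := X ^ (G + 3) with hYdef
  have hXY : X ≤ Y := le_self_pow₀ hX1' (by omega)
  have hlogY : Real.log Y = c * Real.log X := by
    rw [hYdef, Real.log_pow]
    push_cast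
    rfl
  have g1 : X1 ≤ Y := ((le_max_left _ _).trans (le_max_left _ _)).trans (hXM'.trans hXY)
  have g2 : X2 ≤ Y := ((le_max_right _ _).trans (le_max_left _ _)).trans (hXM'.trans hXY)
  have g3 : X3 ≤ Y := (le_max_right _ _).trans (hXM'.trans hXY)
  have hLY : 1 ≤ Real.log Y := by
    rw [hlogY]
    nlinarith
  have hLY' : 1 ≤ Real.log Y ^ ε' := Real.one_le_rpow hLY hε'.le
  have hLYε : Real.log Y ^ ε' + 2 ≤ Real.log X ^ ε := by
    rw [hlogY]
    exact hL2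
  obtain ⟨T, hT1, hT2⟩ := hX2 Y g2
  -- the twists
  have hs : ∀ a : ℤ × ℤ, ∃ s : ℤ, a ∈ A → |(s : ℝ)| ≤ X ∧
      η * B.card ≤ ((B.filter (fun f => Bad κ δ X (s * hm G f a))).card : ℝ) := by
    intro a
    by_cases ha : a ∈ A
    · obtain ⟨s, hs⟩ := hbad a ha
      exact ⟨s, fun _ => hs⟩
    · exact ⟨0, fun h => absurd h ha⟩
  choose s hs using hs
  let R : ℕ → (ℤ × ℤ) → ℤ[X] → Prop := fun i a f =>
    (δ / 2) * (T i).card ≤ |∑ p ∈ T i, (jacobiSym (s a * hm G f a) p : ℝ)| ∧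
      (δ / 2) * primeCount (Y0 κ' Y) ≤ (T i).card
  -- every a in A has many related f in B
  have h1 : ∀ a ∈ A, ∃ B' ⊆ B, η * B.card ≤ (B'.card : ℝ) ∧
      ∀ f ∈ B', ∃ i ∈ range (J + 1), R i a f := by
    intro a ha
    obtain ⟨hsX, hsB⟩ := hs a ha
    refine ⟨B.filter (fun f => Bad κ δ X (s a * hm G f a)), filter_subset _ _, hsB, ?_⟩
    intro f hf
    rw [mem_filter] at hf
    obtain ⟨hfB, hfb⟩ := hf
    have hval : |((s a * hm G f a : ℤ) : ℝ)| ≤ 2 * Y ^ 2 := by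
      have e1 := MP4_hm_le G f a (s a) X (by linarith) hsX (hA a ha).1 (hA a ha).2.1
        (hB f hfB).2.2.1
      have hY1 : 1 ≤ Y := hX1'.trans hXY
      have e2 : Y ≤ 2 * Y ^ 2 := by nlinarith
      exact e1.trans e2
    obtain ⟨y, hy0, hy1, hy⟩ := hX1 Y g1 (s a * hm G f a) hval (MP4_bad G κ δ X hX0 _ hfb)
    exact hT2 y hy0 hy1 (s a * hm G f a) hy
  obtain ⟨i, hi, A₂, hA₂, hA₂c, hA₂r⟩ := pigeon A B J R η h1
  -- block
  have hn1 : 1 ≤ ⌈Real.log Y ^ ε'⌉₊ := by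
    rw [Nat.one_le_ceil_iff]
    linarith
  have hnceil : (⌈Real.log Y ^ ε'⌉₊ : ℝ) < Real.log Y ^ ε' + 1 :=
    Nat.ceil_lt_add_one (by linarith)
  have hnB : ⌈Real.log Y ^ ε'⌉₊ ≤ B.card := by
    have : (⌈Real.log Y ^ ε'⌉₊ : ℝ) < B.card := by linarith
    exact_mod_cast this.le
  obtain ⟨B₀, hB₀, hB₀n, hB₀2n, A₃, hA₃, hA₃c, hA₃r⟩ :=
    exists_block A₂ B (R i) η₂ hη₂.le ⌈Real.log Y ^ ε'⌉₊ hn1 hnB hA₂r
  have hM0 : 0 ≤ Real.log Y ^ 2 * Real.log (Real.log Y) ^ 2 := by positivity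
  -- the bound for A₃
  have hA₃b : (A₃.card : ℝ) ≤ C * (Real.log Y ^ 2 * Real.log (Real.log Y) ^ 2) := by
    rcases Finset.eq_empty_or_nonempty A₃ with he | ⟨a₀, ha₀⟩
    · rw [he]
      simp only [card_empty, Nat.cast_zero]
      positivity
    · have hB₀pos : 0 < (B₀.card : ℝ) := by
        have : 1 ≤ B₀.card := le_trans hn1 hB₀n
        exact_mod_cast this
      have hTi : (δ / 2) * primeCount (Y0 κ' Y) ≤ (T i).card := by
        obtain ⟨B', hB', hB'c, hB'r⟩ := hA₃r a₀ ha₀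
        have : 0 < (B'.card : ℝ) := lt_of_lt_of_le (by positivity) hB'c
        have h0 : 0 < B'.card := by exact_mod_cast this
        obtain ⟨b, hb⟩ := Finset.card_pos.mp h0
        exact (hB'r b hb).2
      apply hX3 Y g3 (T i) (hT1 i) hTi B₀
      · have : (⌈Real.log Y ^ ε'⌉₊ : ℝ) ≤ B₀.card := by exact_mod_cast hB₀n
        exact le_trans (Nat.le_ceil _) this
      · have : (B₀.card : ℝ) ≤ 2 * ⌈Real.log Y ^ ε'⌉₊ := by exact_mod_cast hB₀2n
        linarith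
      · intro f hf
        obtain ⟨b1, b2, b3, b4⟩ := hB f (hB₀ hf)
        exact ⟨b1, b2, fun i => (b3 i).trans hXY, b4⟩
      · intro f hf g hg hne
        exact hB2 f (hB₀ hf) g (hB₀ hg) hne
      · intro a ha
        obtain ⟨b1, b2, b3⟩ := hA a (hA₂ (hA₃ ha))
        exact ⟨b1.trans hXY, b2.trans hXY, b3⟩
      · intro a ha a' ha' hne
        exact hA2 a (hA₂ (hA₃ ha)) a' (hA₂ (hA₃ ha')) hne
      · intro a ha
        obtain ⟨B', hB', hB'c, hB'r⟩ := hA₃r a ha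
        exact ⟨s a, B', hB', hB'c, fun b hb => (hB'r b hb).1⟩
  have hJ : (0 : ℝ) < J + 1 := by positivity
  have hAb : (A.card : ℝ) ≤ (J + 1) * A₂.card := by
    rw [div_le_iff₀ hJ] at hA₂c
    linarith
  have hA₂b : (A₂.card : ℝ) ≤ 2 / η₂ * A₃.card := by
    rw [div_mul_eq_mul_div, le_div_iff₀ hη₂]
    linarith
  -- back to the scale X
  have hlogc : 0 ≤ Real.log c := Real.log_nonneg (by linarith)
  have hll : Real.log (Real.log Y) ≤ (Real.log c + 1) * Real.log (Real.log X) := by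
    rw [hlogY, Real.log_mul (by linarith) (by linarith)]
    nlinarith
  have hll0 : 0 ≤ Real.log (Real.log Y) := Real.log_nonneg hLY
  have hfin : Real.log Y ^ 2 * Real.log (Real.log Y) ^ 2 ≤
      (c ^ 2 * (Real.log c + 1) ^ 2) * (Real.log X ^ 2 * Real.log (Real.log X) ^ 2) := by
    have e1 : Real.log (Real.log Y) ^ 2 ≤ ((Real.log c + 1) * Real.log (Real.log X)) ^ 2 :=
      pow_le_pow_left₀ hll0 hll 2
    calc Real.log Y ^ 2 * Real.log (Real.log Y) ^ 2 ≤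
        Real.log Y ^ 2 * ((Real.log c + 1) * Real.log (Real.log X)) ^ 2 :=
          mul_le_mul_of_nonneg_left e1 (by positivity)
      _ = _ := by rw [hlogY]; ring
  calc (A.card : ℝ) ≤ (J + 1) * A₂.card := hAb
    _ ≤ (J + 1) * (2 / η₂ * A₃.card) := mul_le_mul_of_nonneg_left hA₂b hJ.le
    _ ≤ (J + 1) * (2 / η₂ * (C * ((c ^ 2 * (Real.log c + 1) ^ 2) *
          (Real.log X ^ 2 * Real.log (Real.log X) ^ 2)))) := by
        apply mul_le_mul_of_nonneg_left _ hJ.le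
        apply mul_le_mul_of_nonneg_left _ (by positivity)
        exact hA₃b.trans (mul_le_mul_of_nonneg_left hfin hC.le)
    _ = _ := by ring

end T9
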