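import Pool.Agent.W_aaa0df_mp.MDefs
import Pool.Agent.W_aaa0df_t9.W1

/-!
# T9 poly, MW1: the Weil (Stepanov) bound for a tuple of polynomials of the block
-/

set_option autoImplicit false

namespace T9

open Finset Polynomial

/-- PROOF. `h = ∏ i, (t i mod p)` in `(ZMod p)[X]`, nonzero, `natDegree ≤ 2 k G`; the product of the
quadratic characters is `quadraticChar (h.eval u)`. `h` is not of the form `C c * r ^ 2`: let `f` have odd
multiplicity `e` in `t`; `f mod p` is squarefree of positive degree, take an irreducible factor `π`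
(`Polynomial.exists_irreducible_of_natDegree_pos`..); `π² ∤ f mod p`, and `π` divides no other `g mod p`
with `g ∈ B`, `g ≠ f` (coprime). So the multiplicity (`emultiplicity`/`multiplicity`, additive on
products for the prime `π`) of `π` in `h` is the odd number `e`, while in `C c * r ^ 2` (nonzero) it is even.
`Stepanov.stepanov` (`W_aaa0df_h65/Stepanov`): `12 * h.natDegree * √p ≤ 24 * G * k * √p`. -/
theorem weil_tuple_poly (p : ℕ) [Fact p.Prime] (G : ℕ) (B : Finset ℤ[X]) (hg : GoodF B p)
    (hG : ∀ f ∈ B, f.natDegree ≤ G) (k : ℕ) (t : Fin (2 * k) → ℤ[X]) (ht : ∀ i, t i ∈ B)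
    (hodd : ∃ f ∈ B, Odd ((Finset.univ.filter (fun i => t i = f)).card)) :
    |((∑ u : ZMod p, ∏ i, quadraticChar (ZMod p)
      (((t i).map (Int.castRingHom (ZMod p))).eval u) : ℤ) : ℝ)| ≤ 24 * G * k * √(p : ℝ) := by
  classical
  obtain ⟨hpp, hp2, hsf, hcop⟩ := hg
  set F : ℤ[X] → (ZMod p)[X] := fun f => f.map (Int.castRingHom (ZMod p)) with hF
  have hsq : ∀ (c : ZMod p) (r : (ZMod p)[X]), (∏ i, F (t i)) ≠ C c * r ^ 2 := by
    intro c r hfe
    obtain ⟨f, hfB, hf⟩ := hodd
    obtain ⟨hf1, hf2⟩ := hsf f hfB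
    have hnu : ¬ IsUnit (F f) := by
      intro hu
      have h0 := natDegree_eq_zero_of_isUnit hu
      rw [hF] at h0
      simp only at h0
      omega
    have hF0 : F f ≠ 0 := by
      intro h0
      rw [hF] at h0
      simp only at h0
      rw [h0, natDegree_zero] at hf1
      omega
    obtain ⟨π, hπ, hπf⟩ := WfDvdMonoid.exists_irreducible_factor hnu hF0
    have hπp : Prime π := hπ.prime
    have hterm : ∀ i, emultiplicity π (F (t i)) = ((if t i = f then 1 else 0 : ℕ) : ℕ∞) := by
      intro i
      by_cases hi : t i = f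
      · rw [if_pos hi, hi, emultiplicity_eq_coe, pow_one]
        refine ⟨hπf, fun hd => ?_⟩
        rw [show 1 + 1 = 2 by norm_num, pow_two] at hd
        exact hπ.not_isUnit (hf2 π hd)
      · rw [if_neg hi, Nat.cast_zero, emultiplicity_eq_zero]
        intro hd
        exact hπ.not_isUnit ((hcop f hfB (t i) (ht i) (fun h => hi h.symm)).isUnit_of_dvd' hπf hd)
    have hm : emultiplicity π (∏ i, F (t i)) =
        (((Finset.univ.filter (fun i => t i = f)).card : ℕ) : ℕ∞) := by
      rw [Finset.emultiplicity_prod hπp, Finset.card_filter, Nat.cast_sum]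
      exact Finset.sum_congr rfl fun i _ => hterm i
    rw [hfe] at hm
    have hc : c ≠ 0 := by
      rintro rfl
      rw [C_0, zero_mul, emultiplicity_zero] at hm
      exact (ENat.natCast_ne_top _) hm.symm
    rw [emultiplicity_mul hπp, emultiplicity_pow hπp] at hm
    have hC : emultiplicity π (C c) = 0 := by
      rw [emultiplicity_eq_zero]
      intro hd
      exact hπ.not_isUnit (isUnit_of_dvd_unit hd (isUnit_C.2 hc.isUnit))
    rw [hC, zero_add] at hm
    generalize (Finset.univ.filter (fun i => t i = f)).card = n at hm hf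
    cases hr : emultiplicity π r with
    | top =>
      rw [hr, ENat.mul_top (by norm_num)] at hm
      exact (ENat.natCast_ne_top _) hm.symm
    | coe a =>
      rw [hr] at hm
      have h2 : 2 * a = n := by exact_mod_cast hm
      rw [← h2] at hf
      exact (Nat.not_even_iff_odd.2 hf) (even_two_mul a)
  have hst := Stepanov.stepanov hp2 (∏ i, F (t i)) hsq
  have hsum : (∑ u : ZMod p, ∏ i, quadraticChar (ZMod p)
      (((t i).map (Int.castRingHom (ZMod p))).eval u) : ℤ) =
      ∑ x : ZMod p, quadraticChar (ZMod p) ((∏ i, F (t i)).eval x) := by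
    refine Finset.sum_congr rfl fun u _ => ?_
    rw [eval_prod, map_prod]
  rw [hsum]
  refine hst.trans ?_
  have hdeg : (∏ i, F (t i)).natDegree ≤ 2 * k * G := by
    refine (natDegree_prod_le _ _).trans ?_
    calc ∑ i : Fin (2 * k), (F (t i)).natDegree ≤ ∑ i : Fin (2 * k), G :=
          Finset.sum_le_sum fun i _ => (natDegree_map_le).trans (hG (t i) (ht i))
      _ = 2 * k * G := by simp
  have hdeg' : ((∏ i, F (t i)).natDegree : ℝ) ≤ 2 * k * G := by exact_mod_cast hdeg
  have hs : 0 ≤ √(p : ℝ) := Real.sqrt_nonneg _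
  have h3 := mul_le_mul_of_nonneg_right hdeg' hs
  linarith

end T9
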