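import Pool.Agent.W_aaa0df_mp.MW1
import Pool.Agent.W_aaa0df_t9.W2

/-!
# T9 poly, MW2: the 2k-th moment over pairs of residue classes
(copy and adapt the proofs of `T9.moment`, `T9.card_large`, `T9.card_classes` in
`W_aaa0df_t9/W2.lean`)
-/

set_option autoImplicit false

namespace T9

open Finset Polynomial

/-- the correlation sum at residue classes `u mod p`, `v mod q` -/
noncomputable def FF (B : Finset ℤ[X]) (p q : ℕ) [Fact p.Prime] [Fact q.Prime]
    (u : ZMod p) (v : ZMod q) : ℝ :=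
  ∑ f ∈ B, ((quadraticChar (ZMod p) ((f.map (Int.castRingHom (ZMod p))).eval u) : ℤ) : ℝ) *
    ((quadraticChar (ZMod q) ((f.map (Int.castRingHom (ZMod q))).eval v) : ℤ) : ℝ)

/-- complete sum of a product of symbols -/
noncomputable def MW2_X (p : ℕ) [Fact p.Prime] {n : ℕ} (t : Fin n → ℤ[X]) : ℝ :=
  ∑ u : ZMod p, ∏ i, ((quadraticChar (ZMod p)
    (((t i).map (Int.castRingHom (ZMod p))).eval u) : ℤ) : ℝ)

theorem MW2_X_eq (p : ℕ) [Fact p.Prime] {n : ℕ} (t : Fin n → ℤ[X]) :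
    MW2_X p t = ((∑ u : ZMod p, ∏ i, quadraticChar (ZMod p)
      (((t i).map (Int.castRingHom (ZMod p))).eval u) : ℤ) : ℝ) := by
  unfold MW2_X
  push_cast
  rfl

theorem MW2_X_le (p : ℕ) [Fact p.Prime] {n : ℕ} (t : Fin n → ℤ[X]) :
    |MW2_X p t| ≤ p := by
  unfold MW2_X
  calc |∑ u : ZMod p, ∏ i, ((quadraticChar (ZMod p)
        (((t i).map (Int.castRingHom (ZMod p))).eval u) : ℤ) : ℝ)|
      ≤ ∑ u : ZMod p, |∏ i, ((quadraticChar (ZMod p)
        (((t i).map (Int.castRingHom (ZMod p))).eval u) : ℤ) : ℝ)| :=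
        Finset.abs_sum_le_sum_abs _ _
    _ ≤ ∑ _u : ZMod p, (1 : ℝ) := by
        refine Finset.sum_le_sum fun u _ => ?_
        rw [Finset.abs_prod]
        exact Finset.prod_le_one (fun i _ => abs_nonneg _) (fun i _ => W2_char_le p _)
    _ = p := by
        rw [Finset.sum_const, Finset.card_univ, ZMod.card, nsmul_eq_mul, mul_one]

theorem MW2_expand (B : Finset ℤ[X]) (p q : ℕ) [Fact p.Prime] [Fact q.Prime] (k : ℕ) :
    ∑ u : ZMod p, ∑ v : ZMod q, (FF B p q u v) ^ (2 * k) =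
      ∑ t ∈ Fintype.piFinset (fun _ : Fin (2 * k) => B), MW2_X p t * MW2_X q t := by
  have h1 : ∀ (u : ZMod p) (v : ZMod q), (FF B p q u v) ^ (2 * k) =
      ∑ t ∈ Fintype.piFinset (fun _ : Fin (2 * k) => B),
        (∏ i, ((quadraticChar (ZMod p)
          (((t i).map (Int.castRingHom (ZMod p))).eval u) : ℤ) : ℝ)) *
        (∏ i, ((quadraticChar (ZMod q)
          (((t i).map (Int.castRingHom (ZMod q))).eval v) : ℤ) : ℝ)) := by
    intro u v
    rw [← Fin.prod_const]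
    unfold FF
    rw [Finset.prod_univ_sum]
    refine Finset.sum_congr rfl fun t _ => ?_
    rw [Finset.prod_mul_distrib]
  simp only [h1]
  simp only [Finset.sum_comm (s := (Finset.univ : Finset (ZMod q)))
    (t := Fintype.piFinset (fun _ : Fin (2 * k) => B))]
  rw [Finset.sum_comm]
  refine Finset.sum_congr rfl fun t _ => ?_
  unfold MW2_X
  rw [Finset.sum_mul_sum]

/-- PROOF. As `T9.moment` (`even_tuples` and `weil_tuple_poly`). -/
theorem moment_poly (G : ℕ) (B : Finset ℤ[X]) (hG : ∀ f ∈ B, f.natDegree ≤ G) (p q : ℕ)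
    [Fact p.Prime] [Fact q.Prime] (hp : GoodF B p) (hq : GoodF B q) (k : ℕ) :
    ∑ u : ZMod p, ∑ v : ZMod q, (FF B p q u v) ^ (2 * k) ≤
      (B.card : ℝ) ^ k * (k : ℝ) ^ (2 * k) * (p * q) +
        (B.card : ℝ) ^ (2 * k) * ((24 * G * k) ^ 2 * (√(p : ℝ) * √(q : ℝ))) := by
  rw [MW2_expand]
  set P := Fintype.piFinset (fun _ : Fin (2 * k) => B) with hP
  have hPc : P.card = B.card ^ (2 * k) := by
    rw [hP, Fintype.card_piFinset, Fin.prod_const]
  let E := P.filter (fun t => ∀ b ∈ B, Even ((Finset.univ.filter (fun i => t i = b)).card))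
  have hEc : E.card ≤ B.card ^ k * k ^ (2 * k) := even_tuples B k
  have h1 : ∑ t ∈ P, MW2_X p t * MW2_X q t =
      ∑ t ∈ E, MW2_X p t * MW2_X q t +
      ∑ t ∈ P.filter (fun t => ¬ ∀ b ∈ B, Even ((Finset.univ.filter (fun i => t i = b)).card)),
        MW2_X p t * MW2_X q t :=
    (Finset.sum_filter_add_sum_filter_not _ _ _).symm
  have h2 : ∑ t ∈ E, MW2_X p t * MW2_X q t ≤ (B.card : ℝ) ^ k * (k : ℝ) ^ (2 * k) * (p * q) := by
    calc ∑ t ∈ E, MW2_X p t * MW2_X q t ≤ ∑ _t ∈ E, ((p : ℝ) * q) := by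
          refine Finset.sum_le_sum fun t _ => ?_
          calc MW2_X p t * MW2_X q t ≤ |MW2_X p t * MW2_X q t| := le_abs_self _
            _ = |MW2_X p t| * |MW2_X q t| := abs_mul _ _
            _ ≤ p * q := mul_le_mul (MW2_X_le p t) (MW2_X_le q t) (abs_nonneg _)
                (Nat.cast_nonneg _)
      _ = E.card * ((p : ℝ) * q) := by rw [Finset.sum_const, nsmul_eq_mul]
      _ ≤ ((B.card ^ k * k ^ (2 * k) : ℕ) : ℝ) * ((p : ℝ) * q) := by
          refine mul_le_mul_of_nonneg_right ?_ (by positivity)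
          exact_mod_cast hEc
      _ = (B.card : ℝ) ^ k * (k : ℝ) ^ (2 * k) * (p * q) := by push_cast; ring
  have h3 : ∑ t ∈ P.filter (fun t => ¬ ∀ b ∈ B,
      Even ((Finset.univ.filter (fun i => t i = b)).card)), MW2_X p t * MW2_X q t ≤
      (B.card : ℝ) ^ (2 * k) * ((24 * G * k) ^ 2 * (√(p : ℝ) * √(q : ℝ))) := by
    calc ∑ t ∈ P.filter (fun t => ¬ ∀ b ∈ B,
          Even ((Finset.univ.filter (fun i => t i = b)).card)), MW2_X p t * MW2_X q t
        ≤ ∑ _t ∈ P.filter (fun t => ¬ ∀ b ∈ B,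
          Even ((Finset.univ.filter (fun i => t i = b)).card)),
          ((24 * G * k) ^ 2 * (√(p : ℝ) * √(q : ℝ))) := by
          refine Finset.sum_le_sum fun t ht => ?_
          rw [Finset.mem_filter, hP, Fintype.mem_piFinset] at ht
          obtain ⟨ht1, ht2⟩ := ht
          push Not at ht2
          obtain ⟨b, hb, hb2⟩ := ht2
          have hodd : ∃ b ∈ B, Odd ((Finset.univ.filter (fun i => t i = b)).card) :=
            ⟨b, hb, Nat.not_even_iff_odd.1 hb2⟩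
          have h5 := weil_tuple_poly p G B hp hG k t ht1 hodd
          have h6 := weil_tuple_poly q G B hq hG k t ht1 hodd
          rw [← MW2_X_eq] at h5 h6
          calc MW2_X p t * MW2_X q t ≤ |MW2_X p t * MW2_X q t| := le_abs_self _
            _ = |MW2_X p t| * |MW2_X q t| := abs_mul _ _
            _ ≤ (24 * G * k * √(p : ℝ)) * (24 * G * k * √(q : ℝ)) :=
                mul_le_mul h5 h6 (abs_nonneg _) (by positivity)
            _ = (24 * G * k) ^ 2 * (√(p : ℝ) * √(q : ℝ)) := by ring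
      _ = (P.filter (fun t => ¬ ∀ b ∈ B,
          Even ((Finset.univ.filter (fun i => t i = b)).card))).card *
          ((24 * G * k) ^ 2 * (√(p : ℝ) * √(q : ℝ))) := by rw [Finset.sum_const, nsmul_eq_mul]
      _ ≤ (B.card : ℝ) ^ (2 * k) * ((24 * G * k) ^ 2 * (√(p : ℝ) * √(q : ℝ))) := by
          refine mul_le_mul_of_nonneg_right ?_ (by positivity)
          have h7 := Finset.card_filter_le P (fun t => ¬ ∀ b ∈ B,
            Even ((Finset.univ.filter (fun i => t i = b)).card))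
          rw [hPc] at h7
          exact_mod_cast h7
  rw [h1]
  exact add_le_add h2 h3

/-- PROOF. As `T9.card_large`. -/
theorem card_large_poly (G : ℕ) (B : Finset ℤ[X]) (hB : B.Nonempty) (hG : ∀ f ∈ B, f.natDegree ≤ G)
    (p q : ℕ) [Fact p.Prime] [Fact q.Prime] (hp : GoodF B p) (hq : GoodF B q) (k : ℕ) (c : ℝ)
    (hc : 0 < c) :
    (((Finset.univ : Finset (ZMod p × ZMod q)).filter
      (fun w => c * B.card ≤ |FF B p q w.1 w.2|)).card : ℝ) ≤
      (1 / c) ^ (2 * k) * (((k : ℝ) ^ 2 / B.card) ^ k * (p * q) +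
        (24 * G * k) ^ 2 * (√(p : ℝ) * √(q : ℝ))) := by
  have hn : (0 : ℝ) < B.card := by exact_mod_cast hB.card_pos
  have h1 := moment_poly G B hG p q hp hq k
  set W := (Finset.univ : Finset (ZMod p × ZMod q)).filter
      (fun w => c * B.card ≤ |FF B p q w.1 w.2|) with hW
  have h2 : (W.card : ℝ) * (c * B.card) ^ (2 * k) ≤
      ∑ u : ZMod p, ∑ v : ZMod q, (FF B p q u v) ^ (2 * k) := by
    calc (W.card : ℝ) * (c * B.card) ^ (2 * k) = ∑ _w ∈ W, (c * B.card) ^ (2 * k) := by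
          rw [Finset.sum_const, nsmul_eq_mul]
      _ ≤ ∑ w ∈ W, (FF B p q w.1 w.2) ^ (2 * k) := by
          refine Finset.sum_le_sum fun w hw => ?_
          rw [hW, Finset.mem_filter] at hw
          have h3 := pow_le_pow_left₀ (by positivity) hw.2 (2 * k)
          rw [pow_mul, pow_mul, sq_abs] at h3
          rw [pow_mul, pow_mul]
          exact h3
      _ ≤ ∑ w : ZMod p × ZMod q, (FF B p q w.1 w.2) ^ (2 * k) := by
          refine Finset.sum_le_sum_of_subset_of_nonneg (Finset.filter_subset _ _)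
            fun w _ _ => ?_
          rw [pow_mul]
          positivity
      _ = ∑ u : ZMod p, ∑ v : ZMod q, (FF B p q u v) ^ (2 * k) :=
          Fintype.sum_prod_type (fun w : ZMod p × ZMod q => (FF B p q w.1 w.2) ^ (2 * k))
  have h4 : (0 : ℝ) < (c * B.card) ^ (2 * k) := by positivity
  have h5 : (W.card : ℝ) ≤ ((B.card : ℝ) ^ k * (k : ℝ) ^ (2 * k) * (p * q) +
      (B.card : ℝ) ^ (2 * k) * ((24 * G * k) ^ 2 * (√(p : ℝ) * √(q : ℝ)))) /
      (c * B.card) ^ (2 * k) := by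
    rw [le_div_iff₀ h4]
    exact h2.trans h1
  refine h5.trans (le_of_eq ?_)
  have hn0 : (B.card : ℝ) ≠ 0 := hn.ne'
  have hc0 : c ≠ 0 := hc.ne'
  have h6 : (B.card : ℝ) ^ (2 * k) = (B.card : ℝ) ^ k * (B.card : ℝ) ^ k := by
    rw [two_mul, pow_add]
  have e1 : (c * (B.card : ℝ)) ^ (2 * k) =
      c ^ (2 * k) * ((B.card : ℝ) ^ k * (B.card : ℝ) ^ k) := by rw [mul_pow, h6]
  have e2 : ((k : ℝ) ^ 2 / B.card) ^ k = (k : ℝ) ^ (2 * k) / (B.card : ℝ) ^ k := by
    rw [div_pow, ← pow_mul]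
  have e3 : (1 / c) ^ (2 * k) = 1 / c ^ (2 * k) := one_div_pow _ _
  rw [e1, e2, e3, h6]
  field_simp

theorem MW2_hm (p : ℕ) [Fact p.Prime] (G : ℕ) (f : ℤ[X]) (hf : f.natDegree ≤ G) (a : ℤ × ℤ)
    (h : ¬ (p : ℤ) ∣ a.2) :
    ((hm G f a : ℤ) : ZMod p) = (a.2 : ZMod p) ^ G *
      (f.map (Int.castRingHom (ZMod p))).eval ((a.1 : ZMod p) * (a.2 : ZMod p)⁻¹) := by
  have h1 : (a.2 : ZMod p) ≠ 0 := W2_cast_ne p h
  have h2 : (f.map (Int.castRingHom (ZMod p))).natDegree < G + 1 :=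
    lt_of_le_of_lt natDegree_map_le (Nat.lt_succ_of_le hf)
  rw [eval_eq_sum_range' h2, Finset.mul_sum]
  unfold hm
  push_cast
  refine Finset.sum_congr rfl fun i hi => ?_
  rw [Finset.mem_range] at hi
  have h3 : (a.2 : ZMod p) ^ G = (a.2 : ZMod p) ^ (G - i) * (a.2 : ZMod p) ^ i := by
    rw [← pow_add]
    congr 1
    omega
  rw [coeff_map, h3, mul_pow, inv_pow]
  have h4 : (a.2 : ZMod p) ^ i ≠ 0 := pow_ne_zero _ h1
  rw [eq_intCast]
  field_simp

theorem MW2_jacobi (p : ℕ) [Fact p.Prime] (G : ℕ) (f : ℤ[X]) (hf : f.natDegree ≤ G) (a : ℤ × ℤ)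
    (h : ¬ (p : ℤ) ∣ a.2) :
    (jacobiSym (hm G f a) p : ℝ) = (((quadraticChar (ZMod p) (a.2 : ZMod p) : ℤ) : ℝ)) ^ G *
      ((quadraticChar (ZMod p) ((f.map (Int.castRingHom (ZMod p))).eval
        ((a.1 : ZMod p) * (a.2 : ZMod p)⁻¹)) : ℤ) : ℝ) := by
  rw [← jacobiSym.legendreSym.to_jacobiSym]
  unfold legendreSym
  rw [MW2_hm p G f hf a h, map_mul, map_pow]
  push_cast
  rfl

/-- PROOF. As `T9.card_classes`. For `p ∤ a.2`, `u = a.1 / a.2` in `ZMod p`, `f.natDegree ≤ G`: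
`hm G f a = a.2 ^ G * (f mod p).eval u` in `ZMod p`, so
`jacobiSym (hm G f a) p = χ_p(a.2)^G χ_p((f mod p).eval u)` and `|χ_p(a.2)| = 1`. -/
theorem card_classes_poly (G : ℕ) (B : Finset ℤ[X]) (hB : B.Nonempty)
    (hG : ∀ f ∈ B, f.natDegree ≤ G) (p q : ℕ) (hp : GoodF B p)
    (hq : GoodF B q) (k : ℕ) (c : ℝ) (hc : 0 < c) (A : Finset (ℤ × ℤ))
    (hA : ∀ a ∈ A, ¬ (p : ℤ) ∣ a.2 ∧ ¬ (q : ℤ) ∣ a.2 ∧ c * B.card ≤ |SF G B a p q|) :
    (((A.image (fun a => (((a.1 : ZMod p) * (a.2 : ZMod p)⁻¹ : ZMod p),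
      ((a.1 : ZMod q) * (a.2 : ZMod q)⁻¹ : ZMod q)))).card : ℝ)) ≤
      (1 / c) ^ (2 * k) * (((k : ℝ) ^ 2 / B.card) ^ k * (p * q) +
        (24 * G * k) ^ 2 * (√(p : ℝ) * √(q : ℝ))) := by
  have : Fact p.Prime := ⟨hp.1⟩
  have : Fact q.Prime := ⟨hq.1⟩
  refine le_trans ?_ (card_large_poly G B hB hG p q hp hq k c hc)
  have hsub : A.image (fun a => (((a.1 : ZMod p) * (a.2 : ZMod p)⁻¹ : ZMod p),
      ((a.1 : ZMod q) * (a.2 : ZMod q)⁻¹ : ZMod q))) ⊆
      (Finset.univ : Finset (ZMod p × ZMod q)).filter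
      (fun w => c * B.card ≤ |FF B p q w.1 w.2|) := by
    intro w hw
    rw [Finset.mem_image] at hw
    obtain ⟨a, ha, rfl⟩ := hw
    obtain ⟨ha1, ha2, ha3⟩ := hA a ha
    rw [Finset.mem_filter]
    refine ⟨Finset.mem_univ _, ?_⟩
    have h1 : |SF G B a p q| = |FF B p q ((a.1 : ZMod p) * (a.2 : ZMod p)⁻¹)
        ((a.1 : ZMod q) * (a.2 : ZMod q)⁻¹)| := by
      have h2 : SF G B a p q = (((quadraticChar (ZMod p) (a.2 : ZMod p) : ℤ) : ℝ)) ^ G *
          (((quadraticChar (ZMod q) (a.2 : ZMod q) : ℤ) : ℝ)) ^ G *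
          FF B p q ((a.1 : ZMod p) * (a.2 : ZMod p)⁻¹) ((a.1 : ZMod q) * (a.2 : ZMod q)⁻¹) := by
        unfold SF FF
        rw [Finset.mul_sum]
        refine Finset.sum_congr rfl fun f hf => ?_
        rw [MW2_jacobi p G f (hG f hf) a ha1, MW2_jacobi q G f (hG f hf) a ha2]
        ring
      rw [h2, abs_mul, abs_mul, abs_pow, abs_pow, W2_char_abs p ha1, W2_char_abs q ha2, one_pow,
        one_mul, one_mul]
    rw [← h1]
    exact ha3
  exact_mod_cast Finset.card_le_card hsub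

end T9
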